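import Mathlib
import Pool.Agent.Q249.SlowFib
import Pool.Agent.Q249.SlowFib2

/-!
# MP_e2feb3_nt: third-order gaps of down- and up-integers in slow Fibonacci walks

We prove the full statement of Q1: `D₃ = U₃ = {3,4,5,6,7,8,10,11,13}`.

The definitions are those of the problem file (`Q249.SlowFib`): `w a₁ a₂ k` is the `k`-th term of the
`(a₁,a₂)`-Fibonacci walk, `s n` the largest index at which a walk with positive initial terms
takes the value `n`, and `Down`, `Up` are the sets of down- and up-integers.

Proof.  Reading walks backwards, `n` is a down-integer iff for some `j`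
`n ρ^(2j+2) ≤ f_{2j+2} (1-θ)` and `f_{2j+1} θ < n ρ^(2j+1)`, where `θ = {φ n}`, `ρ = 1/φ`; so,
locally, `Down` is the set of `n` with `{φ n}` below a slowly varying threshold, which for
`n ≥ 250` is at least `0.272` (similarly for `Up` and `1 - {φ n}`).  The rotation by `φ` then
excludes the gaps `9`, `12` and `> 13`; the integers below `250` are checked directly.
-/

namespace Pool.Agent.Results.MP_e2feb3_nt.ThirdOrderGaps

open Q249.SlowFib

theorem hD : ∀ n, 2 ≤ n → n < 320 → (n ∈ Down ↔ DM.testBit n = true) :=
  fun n h2 h => (small_iff n h h2).1

theorem hU : ∀ n, 2 ≤ n → n < 320 → (n ∈ Up ↔ UM.testBit n = true) :=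
  fun n h2 h => (small_iff n h h2).2

theorem down_infinite : Down.Infinite :=
  infinite_of_windows windows_down ⟨2, (hD 2 (by norm_num) (by norm_num)).2 (by decide +kernel)⟩

theorem up_infinite : Up.Infinite :=
  infinite_of_windows windows_up ⟨3, (hU 3 (by norm_num) (by norm_num)).2 (by decide +kernel)⟩

theorem exD (d g : ℕ) (h2 : 2 ≤ d) (hg : d + g < 320) (h0 : DM.testBit d = true)
    (h1 : DM.testBit (d+g) = true)
    (hc : ((Finset.range g).filter (fun i => DM.testBit (d+i) = true)).card = 3) :
    g ∈ gaps Down 3 :=
  mem_gaps down_infinite DM hD d g h2 hg h0 h1 hc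

theorem exU (d g : ℕ) (h2 : 2 ≤ d) (hg : d + g < 320) (h0 : UM.testBit d = true)
    (h1 : UM.testBit (d+g) = true)
    (hc : ((Finset.range g).filter (fun i => UM.testBit (d+i) = true)).card = 3) :
    g ∈ gaps Up 3 :=
  mem_gaps up_infinite UM hU d g h2 hg h0 h1 hc

/-- **MP_e2feb3_nt, Q1.** The sets of down- and up-integers are infinite, and their sets of
third-order gaps are both equal to `{3,4,5,6,7,8,10,11,13}`. -/
theorem result : Down.Infinite ∧ Up.Infinite ∧
    gaps Down 3 = {3, 4, 5, 6, 7, 8, 10, 11, 13} ∧ gaps Up 3 = {3, 4, 5, 6, 7, 8, 10, 11, 13} := by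
  refine ⟨down_infinite, up_infinite, ?_, ?_⟩
  · apply Set.Subset.antisymm (gaps_subset windows_down down_infinite)
    intro g hg
    simp only [Set.mem_insert_iff, Set.mem_singleton_iff] at hg
    rcases hg with rfl | rfl | rfl | rfl | rfl | rfl | rfl | rfl | rfl
    · exact exD 46 3 (by norm_num) (by norm_num) (by decide +kernel) (by decide +kernel) (by decide +kernel)
    · exact exD 9 4 (by norm_num) (by norm_num) (by decide +kernel) (by decide +kernel) (by decide +kernel)
    · exact exD 5 5 (by norm_num) (by norm_num) (by decide +kernel) (by decide +kernel) (by decide +kernel)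
    · exact exD 12 6 (by norm_num) (by norm_num) (by decide +kernel) (by decide +kernel) (by decide +kernel)
    · exact exD 2 7 (by norm_num) (by norm_num) (by decide +kernel) (by decide +kernel) (by decide +kernel)
    · exact exD 23 8 (by norm_num) (by norm_num) (by decide +kernel) (by decide +kernel) (by decide +kernel)
    · exact exD 13 10 (by norm_num) (by norm_num) (by decide +kernel) (by decide +kernel) (by decide +kernel)
    · exact exD 15 11 (by norm_num) (by norm_num) (by decide +kernel) (by decide +kernel) (by decide +kernel)
    · exact exD 107 13 (by norm_num) (by norm_num) (by decide +kernel) (by decide +kernel) (by decide +kernel)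
  · apply Set.Subset.antisymm (gaps_subset windows_up up_infinite)
    intro g hg
    simp only [Set.mem_insert_iff, Set.mem_singleton_iff] at hg
    rcases hg with rfl | rfl | rfl | rfl | rfl | rfl | rfl | rfl | rfl
    · exact exU 19 3 (by norm_num) (by norm_num) (by decide +kernel) (by decide +kernel) (by decide +kernel)
    · exact exU 16 4 (by norm_num) (by norm_num) (by decide +kernel) (by decide +kernel) (by decide +kernel)
    · exact exU 3 5 (by norm_num) (by norm_num) (by decide +kernel) (by decide +kernel) (by decide +kernel)
    · exact exU 11 6 (by norm_num) (by norm_num) (by decide +kernel) (by decide +kernel) (by decide +kernel)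
    · exact exU 4 7 (by norm_num) (by norm_num) (by decide +kernel) (by decide +kernel) (by decide +kernel)
    · exact exU 6 8 (by norm_num) (by norm_num) (by decide +kernel) (by decide +kernel) (by decide +kernel)
    · exact exU 40 10 (by norm_num) (by norm_num) (by decide +kernel) (by decide +kernel) (by decide +kernel)
    · exact exU 42 11 (by norm_num) (by norm_num) (by decide +kernel) (by decide +kernel) (by decide +kernel)
    · exact exU 291 13 (by norm_num) (by norm_num) (by decide +kernel) (by decide +kernel) (by decide +kernel)

end Pool.Agent.Results.MP_e2feb3_nt.ThirdOrderGaps
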